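import Pool.Agent.P.MP_a14ce1_nt.Top

namespace Pool.Agent.Results.MP_a14ce1_nt.AlmostAllScales

/-- Correlations of the Liouville function along any number of pairwise non-proportional affine
forms are small at almost all scales. -/
theorem result (k : ℕ) (hk : 0 < k) (a b : Fin k → ℕ) (ha : ∀ i, 0 < a i)
    (hab : ∀ i j, i ≠ j → a i * b j ≠ a j * b i) :
    Asymptotics.IsLittleO Filter.atTop
      (fun X : ℕ => ∑ N ∈ Finset.Icc 1 X, (1 / (N : ℝ)) *
        |(1 / (N : ℝ)) * ∑ n ∈ Finset.Icc 1 N,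
          ∏ i, (-1 : ℝ) ^ ArithmeticFunction.cardFactors (a i * n + b i)|)
      (fun X : ℕ => Real.log X) :=
  Pool.Agent.P.MP_a14ce1_nt.V.scales_of_LU Pool.Agent.P.MP_a14ce1_nt.Top.lu_lam k hk a b ha hab

end Pool.Agent.Results.MP_a14ce1_nt.AlmostAllScales
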